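import Pool.Agent.H63.LP2

set_option autoImplicit false

namespace Pool.Agent.Results.MP_ab0e6d_lc.Proper

open Pool.Agent.H63.FG

/-- ET0L is contained in LP-E0L, and some LP-E0L language is, even up to the empty word, not an
ET0L language. -/
theorem result :
    (∀ (T N : Type) [Fintype T] [Fintype N] (G : ETG T N),
      ∃ (N' : Type) (_ : Fintype N') (G' : LPG T N'), G'.lang = G.lang) ∧
    ∃ (N : Type) (_ : Fintype N) (G : LPG (Fin 3) N),
      ∀ (N' : Type) [Fintype N'] (G' : ETG (Fin 3) N'), G'.lang \ {[]} ≠ G.lang \ {[]} :=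
  ⟨fun _ _ _ _ G => ⟨_, inferInstance, simE G, simE_lang G⟩, lp_sep⟩

end Pool.Agent.Results.MP_ab0e6d_lc.Proper
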